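import Mathlib

/-!
# A weak cop win graph with the double long return property

We formalise the game of cops and robbers with one cop on a (possibly infinite) graph, the notions
of weak cop win and of the double long return property, and we exhibit a connected graph having
both properties.
-/

set_option autoImplicit false

namespace Pool.Agent.Results.MP_70f359_co.DoubleLongReturn

universe u

/-- `Step G a b`: a player standing at `a` may be at `b` after one move
(he stays where he is, or he moves along an edge). -/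
def Step {V : Type u} (G : SimpleGraph V) (a b : V) : Prop := a = b ∨ G.Adj a b

/-- `Legal G p`: the sequence of positions `p 0, p 1, p 2, …` arises from legal moves. -/
def Legal {V : Type u} (G : SimpleGraph V) (p : ℕ → V) : Prop := ∀ k, Step G (p k) (p (k + 1))

/-- `hist p k` is the list `[p 0, …, p (k - 1)]`. -/
def hist {V : Type u} (p : ℕ → V) (k : ℕ) : List V := (List.range k).map p

/-- The play: the cop is at `c 0`, then the robber is at `r 0` (time `0`); for `k ≥ 0` the cop moves
from `c k` to `c (k + 1)` and then the robber moves from `r k` to `r (k + 1)`, his position at time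
`k + 1`. `Caught c r`: at some moment both players are at the same vertex. -/
def Caught {V : Type u} (c r : ℕ → V) : Prop := ∃ k, c k = r k ∨ c (k + 1) = r k

/-- A cop strategy is a function `S` from lists of vertices to vertices: `S []` is the starting
vertex, and after the robber has been at `r 0, …, r k` the cop moves to `S [r 0, …, r k]`.
This is the resulting sequence of cop positions. -/
def copPos {V : Type u} (S : List V → V) (r : ℕ → V) (k : ℕ) : V := S (hist r k)

/-- A robber strategy is a function `R` from lists of vertices to vertices: after the cop has been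
at `c 0, …, c k` the robber's position at time `k` is `R [c 0, …, c k]`.
This is the resulting sequence of robber positions. -/
def robPos {V : Type u} (R : List V → V) (c : ℕ → V) (k : ℕ) : V := R (hist c (k + 1))

/-- `G` is a weak cop win: the cop has a strategy that makes only legal moves and guarantees, against
every legal play of the robber, that he catches the robber or that every vertex is occupied by the
robber at only finitely many times. -/
def WeakCopWin {V : Type u} (G : SimpleGraph V) : Prop :=
  ∃ S : List V → V, ∀ r : ℕ → V, Legal G r →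
    Legal G (copPos S r) ∧ (Caught (copPos S r) r ∨ ∀ v : V, {k : ℕ | r k = v}.Finite)

/-- `G` has the double long return property: for every cop starting vertex `c₀` there is a robber
starting vertex `v` such that for all positive integers `m`, `n` the robber has a strategy that,
against every legal play of the cop starting at `c₀`, starts at `v`, makes only legal moves, is never
caught, and for which (i) all robber positions lie in a finite set of vertices, or (ii) there are
times `t ≥ m` and `s ≥ t + n` at both of which the robber is at `v`. -/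
def HasDoubleLongReturn {V : Type u} (G : SimpleGraph V) : Prop :=
  ∀ c₀ : V, ∃ v : V, ∀ m n : ℕ, 0 < m → 0 < n →
    ∃ R : List V → V, ∀ c : ℕ → V, c 0 = c₀ → Legal G c →
      robPos R c 0 = v ∧ Legal G (robPos R c) ∧ ¬ Caught c (robPos R c) ∧
      ((∃ F : Set V, F.Finite ∧ ∀ k, robPos R c k ∈ F) ∨
        ∃ t s : ℕ, m ≤ t ∧ t + n ≤ s ∧ robPos R c t = v ∧ robPos R c s = v)

/-! ### Basic facts -/

section basic

variable {V : Type u}

theorem hist_succ (p : ℕ → V) (k : ℕ) : hist p (k + 1) = hist p k ++ [p k] := by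
  simp [hist, List.range_succ]

theorem hist_tail (p : ℕ → V) (k : ℕ) :
    (hist p (k + 1)).tail = hist (fun i => p (i + 1)) k := by
  simp [hist, List.range_succ_eq_map, List.map_map, Function.comp_def]

theorem Step.refl (G : SimpleGraph V) (a : V) : Step G a a := Or.inl rfl

theorem Step.symm {G : SimpleGraph V} {a b : V} (h : Step G a b) : Step G b a := by
  rcases h with h | h
  · exact Or.inl h.symm
  · exact Or.inr h.symm

/-- The sequence of states of an automaton that reads `x 0, x 1, …`. -/
def run {α β : Type*} (init : α) (upd : α → β → α) (x : ℕ → β) : ℕ → α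
  | 0 => init
  | (k + 1) => upd (run init upd x k) (x k)

theorem foldl_hist {α : Type*} (init : α) (upd : α → V → α) (x : ℕ → V) (k : ℕ) :
    (hist x k).foldl upd init = run init upd x k := by
  induction k with
  | zero => simp [hist, run]
  | succ k ih => rw [hist_succ, List.foldl_append, ih]; simp [run]

end basic

/-! ### Dominated constructions give weak cop wins -/

section cop

variable {V : Type u} {W : Type*} [LinearOrder W]

/-- Data of a construction of the graph by adding dominated vertices (ties in the rank are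
allowed). -/
structure Constr (G : SimpleGraph V) (ρ : V → W) (δ : V → V) (root : V) (len : V → ℕ) : Prop where
  root_le : ∀ x, ρ root ≤ ρ x
  len_lt : ∀ x, x ≠ root → len (δ x) < len x
  rank_lt : ∀ x, x ≠ root → ρ (δ x) < ρ x
  dom : ∀ x, x ≠ root → ∀ y, Step G x y → ρ y ≤ ρ x → Step G (δ x) y

variable {G : SimpleGraph V} {ρ : V → W} {δ : V → V} {root : V} {len : V → ℕ}

theorem Constr.reach_root (h : Constr G ρ δ root len) (x : V) :
    ∃ j, j ≤ len x ∧ δ^[j] x = root := by
  induction hn : len x using Nat.strong_induction_on generalizing x with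
  | _ n ih =>
    by_cases hx : x = root
    · exact ⟨0, Nat.zero_le _, hx⟩
    · have h1 := h.len_lt x hx
      obtain ⟨j, hj1, hj2⟩ := ih (len (δ x)) (hn ▸ h1) (δ x) rfl
      refine ⟨j + 1, by omega, ?_⟩
      simpa [Function.iterate_succ_apply] using hj2

theorem Constr.exists_le (h : Constr G ρ δ root len) {β : W} (hβ : ρ root ≤ β) (x : V) :
    ∃ j, ρ (δ^[j] x) ≤ β := by
  obtain ⟨j, -, hj⟩ := h.reach_root x
  exact ⟨j, by rw [hj]; exact hβ⟩

open Classical in
/-- The least number of dominations needed to reach rank at most `β` (zero if impossible). -/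
noncomputable def lev (ρ : V → W) (δ : V → V) (β : W) (x : V) : ℕ :=
  if h : ∃ j, ρ (δ^[j] x) ≤ β then Nat.find h else 0

/-- The retraction onto the vertices of rank at most `β`. -/
noncomputable def ret (ρ : V → W) (δ : V → V) (β : W) (x : V) : V := δ^[lev ρ δ β x] x

theorem Constr.rank_ret (h : Constr G ρ δ root len) {β : W} (hβ : ρ root ≤ β) (x : V) :
    ρ (ret ρ δ β x) ≤ β := by
  classical
  have hx := h.exists_le hβ x
  unfold ret lev
  rw [dif_pos hx]
  exact Nat.find_spec hx

theorem Constr.lev_eq_zero (h : Constr G ρ δ root len) {β : W} (hβ : ρ root ≤ β) {x : V}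
    (hx : ρ x ≤ β) : lev ρ δ β x = 0 := by
  classical
  have hx' := h.exists_le hβ x
  unfold lev
  rw [dif_pos hx']
  rw [Nat.find_eq_zero]
  simpa using hx

theorem Constr.lev_succ (h : Constr G ρ δ root len) {β : W} (hβ : ρ root ≤ β) {x : V}
    (hx : β < ρ x) : lev ρ δ β x = lev ρ δ β (δ x) + 1 := by
  classical
  have hx' := h.exists_le hβ x
  have hx'' := h.exists_le hβ (δ x)
  unfold lev
  rw [dif_pos hx', dif_pos hx'']
  rw [Nat.find_eq_iff]
  constructor
  · have := Nat.find_spec hx''
    simpa [Function.iterate_succ_apply] using this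
  · intro n hn
    rcases n with _ | n
    · simpa using hx
    · have := Nat.find_min hx'' (m := n) (by omega)
      simpa [Function.iterate_succ_apply] using this

theorem Constr.ret_of_le (h : Constr G ρ δ root len) {β : W} (hβ : ρ root ≤ β) {x : V}
    (hx : ρ x ≤ β) : ret ρ δ β x = x := by
  unfold ret
  rw [h.lev_eq_zero hβ hx]
  rfl

theorem Constr.ret_of_lt (h : Constr G ρ δ root len) {β : W} (hβ : ρ root ≤ β) {x : V}
    (hx : β < ρ x) : ret ρ δ β x = ret ρ δ β (δ x) := by
  unfold ret
  rw [h.lev_succ hβ hx, Function.iterate_succ_apply]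

/-- The retractions are (reflexive) homomorphisms. -/
theorem Constr.ret_step (h : Constr G ρ δ root len) {β : W} (hβ : ρ root ≤ β) (x y : V)
    (hxy : Step G x y) : Step G (ret ρ δ β x) (ret ρ δ β y) := by
  induction hn : len x + len y using Nat.strong_induction_on generalizing x y with
  | _ n ih =>
    have key : ∀ x y : V, Step G x y → len x + len y = n → ρ y ≤ ρ x →
        Step G (ret ρ δ β x) (ret ρ δ β y) := by
      intro x y hxy hn hr
      by_cases hx : ρ x ≤ β
      · rw [h.ret_of_le hβ hx, h.ret_of_le hβ (hr.trans hx)]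
        exact hxy
      · have hx := not_le.mp hx
        have hne : x ≠ root := by
          rintro rfl
          exact absurd hβ (not_le.mpr hx)
        rw [h.ret_of_lt hβ hx]
        have h1 := h.dom x hne y hxy hr
        have h2 := h.len_lt x hne
        exact ih (len (δ x) + len y) (by omega) (δ x) y h1 rfl
    rcases le_total (ρ y) (ρ x) with hr | hr
    · exact key x y hxy hn hr
    · exact (key y x hxy.symm (by omega) hr).symm

/-- The next level of the cop: the rank of the last vertex before the retract. -/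
noncomputable def nxt (ρ : V → W) (δ : V → V) (β : W) (x : V) : W :=
  if lev ρ δ β x = 0 then β else ρ (δ^[lev ρ δ β x - 1] x)

theorem Constr.lt_nxt (h : Constr G ρ δ root len) {β : W} (hβ : ρ root ≤ β) {x : V}
    (hx : ret ρ δ β x ≠ x) : β < nxt ρ δ β x ∧
      ∃ j, j < len x ∧ nxt ρ δ β x = ρ (δ^[j] x) := by
  classical
  have hx' := h.exists_le hβ x
  have hne : lev ρ δ β x ≠ 0 := by
    intro h0
    apply hx
    unfold ret
    rw [h0]; rfl
  unfold nxt
  rw [if_neg hne]
  constructor
  · have hlev : lev ρ δ β x = Nat.find hx' := by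
      unfold lev; rw [dif_pos hx']
    have := Nat.find_min hx' (m := lev ρ δ β x - 1) (by omega)
    exact not_le.mp this
  · refine ⟨lev ρ δ β x - 1, ?_, rfl⟩
    obtain ⟨j, hj1, hj2⟩ := h.reach_root x
    have hlev : lev ρ δ β x = Nat.find hx' := by
      unfold lev; rw [dif_pos hx']
    have : Nat.find hx' ≤ j := Nat.find_min' hx' (by rw [hj2]; exact hβ)
    omega

theorem Constr.ret_nxt (h : Constr G ρ δ root len) {β : W} (hβ : ρ root ≤ β) {x : V}
    (hx : ret ρ δ β x ≠ x) : δ (ret ρ δ (nxt ρ δ β x) x) = ret ρ δ β x ∧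
      ρ (ret ρ δ (nxt ρ δ β x) x) = nxt ρ δ β x ∧ ret ρ δ (nxt ρ δ β x) x ≠ root := by
  classical
  induction hn : lev ρ δ β x generalizing x with
  | zero =>
    exfalso
    apply hx
    unfold ret
    rw [hn]; rfl
  | succ n ih =>
    have hx' := h.exists_le hβ x
    have hlt : β < ρ x := by
      by_contra hcon
      rw [h.lev_eq_zero hβ (not_lt.mp hcon)] at hn
      omega
    have hne : x ≠ root := by
      rintro rfl
      exact absurd hβ (not_le.mpr hlt)
    have hs := h.lev_succ hβ hlt
    rcases n with _ | n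
    · -- the retract is `δ x`
      have h0 : lev ρ δ β (δ x) = 0 := by omega
      have h1 : nxt ρ δ β x = ρ x := by
        unfold nxt
        rw [hn]
        simp
      have h2 : ret ρ δ β x = δ x := by
        rw [h.ret_of_lt hβ hlt]
        unfold ret
        rw [h0]; rfl
      have h3 : ret ρ δ (nxt ρ δ β x) x = x := by
        rw [h1]
        exact h.ret_of_le (h.root_le x) le_rfl
      rw [h3, h2, h1]
      exact ⟨rfl, rfl, hne⟩
    · have hl : lev ρ δ β (δ x) = n + 1 := by omega
      have hx2 : ret ρ δ β (δ x) ≠ δ x := by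
        intro hcon
        have : ρ (δ x) ≤ β := by
          rw [← hcon]; exact h.rank_ret hβ _
        rw [h.lev_eq_zero hβ this] at hl
        omega
      obtain ⟨i1, i2, i3⟩ := ih hx2 hl
      have hn1 : nxt ρ δ β x = nxt ρ δ β (δ x) := by
        unfold nxt
        rw [hn, hl]
        simp [Function.iterate_succ_apply]
      have hlt2 : nxt ρ δ β (δ x) < ρ x := by
        have h4 : ρ (ret ρ δ (nxt ρ δ β (δ x)) (δ x)) ≤ ρ (δ x) := by
          rw [i2]
          -- nxt is the rank of an iterate of `δ` starting at `δ x`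
          have hmono : ∀ (j : ℕ) (y : V), (∀ i < j, δ^[i] y ≠ root) → ρ (δ^[j] y) ≤ ρ y := by
            intro j
            induction j with
            | zero => intro y _; simp
            | succ j ihj =>
              intro y hy
              rw [Function.iterate_succ_apply]
              have hy0 : y ≠ root := by simpa using hy 0 (by omega)
              refine le_trans (ihj (δ y) ?_) (h.rank_lt y hy0).le
              intro i hi
              have := hy (i + 1) (by omega)
              simpa [Function.iterate_succ_apply] using this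
          unfold nxt
          rw [hl]
          simp only [Nat.add_eq_zero_iff, one_ne_zero, and_false, if_false, Nat.add_sub_cancel]
          apply hmono
          intro i hi hroot
          have hx'' := h.exists_le hβ (δ x)
          have hlev : lev ρ δ β (δ x) = Nat.find hx'' := by
            unfold lev; rw [dif_pos hx'']
          have := Nat.find_min hx'' (m := i) (by omega)
          apply this
          rw [hroot]; exact hβ
        rw [i2] at h4
        exact lt_of_le_of_lt h4 (h.rank_lt x hne)
      have hroot2 : ρ root ≤ nxt ρ δ β (δ x) := by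
        rw [← i2]; exact h.root_le _
      have hr1 : ret ρ δ (nxt ρ δ β x) x = ret ρ δ (nxt ρ δ β (δ x)) (δ x) := by
        rw [hn1]
        exact h.ret_of_lt hroot2 hlt2
      rw [hr1, h.ret_of_lt hβ hlt, hn1]
      exact ⟨i1, i2, i3⟩

/-- A graph with a construction by dominated vertices is a weak cop win. -/
theorem Constr.weakCopWin (h : Constr G ρ δ root len) : WeakCopWin G := by
  classical
  -- state: the level `β`; after reading the robber position `x` the cop goes to `ret β x`
  let upd : (W × V) → V → (W × V) := fun s x => (nxt ρ δ s.1 x, ret ρ δ s.1 x)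
  refine ⟨fun L => (L.foldl upd (ρ root, root)).2, ?_⟩
  intro r hr
  set st : ℕ → W × V := run (ρ root, root) upd r with hst
  have hpos : ∀ k, copPos (fun L => (L.foldl upd (ρ root, root)).2) r k = (st k).2 := by
    intro k
    simp only [copPos]
    rw [foldl_hist]
  have hst0 : st 0 = (ρ root, root) := rfl
  have hsts : ∀ k, st (k + 1) = (nxt ρ δ (st k).1 (r k), ret ρ δ (st k).1 (r k)) := fun k => rfl
  have hβ : ∀ k, ρ root ≤ (st k).1 := by
    intro k
    induction k with
    | zero => rw [hst0]
    | succ k ih =>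
      rw [hsts]
      by_cases hx : ret ρ δ (st k).1 (r k) = r k
      · have hle : ρ (r k) ≤ (st k).1 := by
          rw [← hx]; exact h.rank_ret ih _
        simp only [nxt]
        rw [if_pos (h.lev_eq_zero ih hle)]
        exact ih
      · exact ih.trans (h.lt_nxt ih hx).1.le
  refine ⟨?_, ?_⟩
  · intro k
    rw [hpos, hpos]
    rcases k with _ | k
    · rw [hsts, hst0]
      simp only
      have h1 : ρ (ret ρ δ (ρ root) (r 0)) ≤ ρ root := h.rank_ret le_rfl _
      left
      by_contra hne
      have h2 := h.rank_lt _ (Ne.symm hne)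
      have h3 := h.root_le (δ (ret ρ δ (ρ root) (r 0)))
      exact absurd (h3.trans_lt (h2.trans_le h1)) (lt_irrefl _)
    · rw [hsts (k + 1), hsts k]
      simp only
      have hstep := hr k
      by_cases hx : ret ρ δ (st k).1 (r k) = r k
      · have hle : ρ (r k) ≤ (st k).1 := by
          rw [← hx]; exact h.rank_ret (hβ k) _
        have hn : nxt ρ δ (st k).1 (r k) = (st k).1 := by
          simp only [nxt]
          rw [if_pos (h.lev_eq_zero (hβ k) hle)]
        rw [hn]
        exact h.ret_step (hβ k) _ _ hstep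
      · obtain ⟨h1, h2, h3⟩ := h.ret_nxt (hβ k) hx
        have hβ' : ρ root ≤ nxt ρ δ (st k).1 (r k) := by
          rw [← h2]; exact h.root_le _
        rw [← h1]
        apply h.dom _ h3
        · exact h.ret_step hβ' _ _ hstep
        · rw [h2]
          exact h.rank_ret hβ' _
  · by_cases hc : Caught (copPos (fun L => (L.foldl upd (ρ root, root)).2) r) r
    · exact Or.inl hc
    · right
      have hnc : ∀ k, ret ρ δ (st k).1 (r k) ≠ r k := by
        intro k hk
        apply hc
        refine ⟨k, Or.inr ?_⟩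
        rw [hpos, hsts]
        exact hk
      have hmono : StrictMono (fun k => (st k).1) := by
        apply strictMono_nat_of_lt_succ
        intro k
        rw [hsts]
        exact (h.lt_nxt (hβ k) (hnc k)).1
      intro v
      have hfin : ((fun j => ρ (δ^[j] v)) '' (Set.Iio (len v))).Finite :=
        (Set.finite_Iio _).image _
      have hinj : Function.Injective (fun k => (st (k + 1)).1) := by
        intro a b hab
        have := hmono.injective hab
        omega
      apply (hfin.preimage hinj.injOn).subset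
      intro k hk
      have hk : r k = v := hk
      simp only [Set.mem_preimage, Set.mem_image, Set.mem_Iio]
      obtain ⟨-, j, hj1, hj2⟩ := h.lt_nxt (hβ k) (hnc k)
      refine ⟨j, by rw [← hk]; exact hj1, ?_⟩
      rw [hsts, ← hk]
      exact hj2.symm

theorem Constr.connected (h : Constr G ρ δ root len) : G.Connected := by
  have hreach : ∀ x, G.Reachable x root := by
    intro x
    induction hn : len x using Nat.strong_induction_on generalizing x with
    | _ n ih =>
      by_cases hx : x = root
      · rw [hx]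
      · have h1 := h.len_lt x hx
        have h2 := ih (len (δ x)) (hn ▸ h1) (δ x) rfl
        rcases h.dom x hx x (Step.refl G x) le_rfl with h3 | h3
        · rw [h3] at h2; exact h2
        · exact (h3.reachable.symm).trans h2
  have : Nonempty V := ⟨root⟩
  exact SimpleGraph.Connected.mk (fun x y => (hreach x).trans (hreach y).symm)

end cop

/-! ### The base graph: two suspensions of a ray glued at a pole -/

/-- Vertices of the base graph: the common pole `x`, the other poles `y s`, and the rays `t s n`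
(`s` a Boolean). -/
inductive B : Type
  | x : B
  | y : Bool → B
  | t : Bool → ℕ → B

/-- The adjacency-or-equality relation of the base graph. -/
def near : B → B → Prop
  | .x, .x => True
  | .x, .y _ => False
  | .x, .t _ _ => True
  | .y _, .x => False
  | .y s, .y s' => s = s'
  | .y s, .t s' _ => s = s'
  | .t _ _, .x => True
  | .t s _, .y s' => s = s'
  | .t s n, .t s' n' => s = s' ∧ n ≤ n' + 1 ∧ n' ≤ n + 1

theorem near_refl (p : B) : near p p := by
  cases p <;> simp [near]

theorem near_symm {p q : B} (h : near p q) : near q p := by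
  cases p <;> cases q <;> simp_all [near]

/-- The dominator map of the base graph. -/
def dB : B → B
  | .x => .x
  | .y s => .t s 0
  | .t _ 0 => .x
  | .t s (n + 1) => .t s n

/-- The rank function of the base graph. -/
def rB : B → ℕ
  | .x => 0
  | .y _ => 2
  | .t _ 0 => 1
  | .t _ (n + 1) => n + 3

/-- The distance to the root along dominators. -/
def lB : B → ℕ
  | .x => 0
  | .y _ => 2
  | .t _ n => n + 1

theorem lB_x : lB .x = 0 := rfl

theorem rB_x : rB .x = 0 := rfl

theorem lB_lt {p : B} (h : p ≠ .x) : lB (dB p) < lB p := by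
  rcases p with _ | s | ⟨s, _ | n⟩ <;> simp_all [lB, dB]

theorem rB_lt {p : B} (h : p ≠ .x) : rB (dB p) < rB p := by
  rcases p with _ | s | ⟨s, _ | _ | n⟩ <;> simp_all [rB, dB]

theorem domB {p q : B} (h : p ≠ .x) (hpq : near p q) (hr : rB q ≤ rB p) : near (dB p) q := by
  rcases p with _ | s | ⟨s, _ | n⟩ <;> rcases q with _ | s' | ⟨s', _ | n'⟩ <;>
    simp_all [near, rB, dB]
  all_goals omega

/-- The special vertices of the base graph: the poles and the even ray vertices. -/
def A : B → Prop
  | .x => True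
  | .y _ => True
  | .t _ n => n % 2 = 0

/-! ### The graph -/

/-- The vertex set of the graph. -/
abbrev Vtx : Type :=
  {u : B × B × ℕ // (A u.1 ∨ (u.2.1 = .x ∧ u.2.2 = 0)) ∧ (A u.2.1 ∨ u.2.2 = 0)}

/-- Adjacent or equal. -/
def Near (u w : Vtx) : Prop :=
  near u.1.1 w.1.1 ∧ near u.1.2.1 w.1.2.1 ∧ u.1.2.2 ≤ w.1.2.2 + 1 ∧ w.1.2.2 ≤ u.1.2.2 + 1

/-- The graph: induced subgraph of a strong product. -/
def Gr : SimpleGraph Vtx where
  Adj u w := u ≠ w ∧ Near u w
  symm := ⟨fun _ _ h => ⟨h.1.symm, near_symm h.2.1, near_symm h.2.2.1, h.2.2.2.2, h.2.2.2.1⟩⟩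
  loopless := ⟨fun _ h => h.1 rfl⟩

theorem step_iff (u w : Vtx) : Step Gr u w ↔ Near u w := by
  constructor
  · rintro (h | h)
    · subst h
      exact ⟨near_refl _, near_refl _, by omega, by omega⟩
    · exact h.2
  · intro h
    by_cases huw : u = w
    · exact Or.inl huw
    · exact Or.inr ⟨huw, h⟩

/-- The root. -/
def rootV : Vtx := ⟨(.x, .x, 0), by simp [A]⟩

open Classical in
/-- The dominator map. -/
noncomputable def dV (u : Vtx) : Vtx :=
  if h : 0 < u.1.2.2 then
    ⟨(u.1.1, u.1.2.1, u.1.2.2 - 1), by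
      obtain ⟨h1, h2⟩ := u.2
      refine ⟨Or.inl ?_, Or.inl ?_⟩
      · rcases h1 with h1 | h1
        · exact h1
        · omega
      · rcases h2 with h2 | h2
        · exact h2
        · omega⟩
  else if h' : u.1.2.1 ≠ .x then
    ⟨(u.1.1, dB u.1.2.1, 0), by
      obtain ⟨h1, h2⟩ := u.2
      refine ⟨Or.inl ?_, Or.inr rfl⟩
      rcases h1 with h1 | h1
      · exact h1
      · exact absurd h1.1 h'⟩
  else
    ⟨(dB u.1.1, .x, 0), ⟨Or.inr ⟨rfl, rfl⟩, Or.inr rfl⟩⟩

/-- The rank. -/
def rV (u : Vtx) : ℕ ×ₗ ℕ ×ₗ ℕ := toLex (u.1.2.2, toLex (rB u.1.2.1, rB u.1.1))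

/-- The distance to the root along dominators. -/
def lV (u : Vtx) : ℕ := u.1.2.2 + lB u.1.2.1 + lB u.1.1

theorem rV_le_iff (u w : Vtx) : rV u ≤ rV w ↔
    u.1.2.2 < w.1.2.2 ∨ (u.1.2.2 = w.1.2.2 ∧
      (rB u.1.2.1 < rB w.1.2.1 ∨ (rB u.1.2.1 = rB w.1.2.1 ∧ rB u.1.1 ≤ rB w.1.1))) := by
  simp [rV, Prod.Lex.le_iff]

theorem rV_lt_iff (u w : Vtx) : rV u < rV w ↔
    u.1.2.2 < w.1.2.2 ∨ (u.1.2.2 = w.1.2.2 ∧
      (rB u.1.2.1 < rB w.1.2.1 ∨ (rB u.1.2.1 = rB w.1.2.1 ∧ rB u.1.1 < rB w.1.1))) := by
  simp [rV, Prod.Lex.lt_iff]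

theorem rB_eq_zero {p : B} (h : rB p = 0) : p = .x := by
  rcases p with _ | s | ⟨s, _ | n⟩ <;> simp_all [rB]

theorem dV_cases (u : Vtx) :
    (0 < u.1.2.2 ∧ (dV u).1 = (u.1.1, u.1.2.1, u.1.2.2 - 1)) ∨
    (u.1.2.2 = 0 ∧ u.1.2.1 ≠ .x ∧ (dV u).1 = (u.1.1, dB u.1.2.1, 0)) ∨
    (u.1.2.2 = 0 ∧ u.1.2.1 = .x ∧ (dV u).1 = (dB u.1.1, .x, 0)) := by
  classical
  by_cases h : 0 < u.1.2.2
  · left
    refine ⟨h, ?_⟩
    unfold dV
    rw [dif_pos h]
  · by_cases h' : u.1.2.1 = .x
    · right; right
      refine ⟨by omega, h', ?_⟩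
      unfold dV
      rw [dif_neg h, dif_neg (by simpa using h')]
    · right; left
      refine ⟨by omega, h', ?_⟩
      unfold dV
      rw [dif_neg h, dif_pos h']

theorem ne_x {u : Vtx} (hu : u ≠ rootV) (h1 : u.1.2.2 = 0) (h2 : u.1.2.1 = .x) :
    u.1.1 ≠ .x := by
  intro h3
  apply hu
  apply Subtype.ext
  exact Prod.ext h3 (Prod.ext h2 h1)

theorem constr : Constr Gr rV dV rootV lV where
  root_le u := by
    rw [rV_le_iff]
    simp only [rootV, rB]
    omega
  len_lt u hu := by
    unfold lV
    rcases dV_cases u with ⟨h1, h2⟩ | ⟨h1, h2, h3⟩ | ⟨h1, h2, h3⟩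
    · rw [h2]; simp only; omega
    · have := lB_lt h2
      rw [h3]; simp only; omega
    · have := lB_lt (ne_x hu h1 h2)
      rw [h3]; simp only [lB_x]; omega
  rank_lt u hu := by
    rw [rV_lt_iff]
    rcases dV_cases u with ⟨h1, h2⟩ | ⟨h1, h2, h3⟩ | ⟨h1, h2, h3⟩
    · rw [h2]; left; simp only; omega
    · have := rB_lt h2
      rw [h3]; right; simp only; omega
    · have := rB_lt (ne_x hu h1 h2)
      rw [h3, h2, rB_x]; right; refine ⟨h1.symm, Or.inr ⟨rfl, this⟩⟩
  dom u hu w huw hle := by
    rw [step_iff] at huw ⊢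
    rw [rV_le_iff] at hle
    obtain ⟨h1, h2, h3, h4⟩ := huw
    unfold Near
    rcases dV_cases u with ⟨g1, g2⟩ | ⟨g1, g2, g3⟩ | ⟨g1, g2, g3⟩
    · rw [g2]
      refine ⟨h1, h2, ?_, ?_⟩ <;> simp only <;> omega
    · have hr : rB w.1.2.1 ≤ rB u.1.2.1 := by omega
      rw [g3]
      refine ⟨h1, domB g2 h2 hr, ?_, ?_⟩ <;> simp only <;> omega
    · have hne := ne_x hu g1 g2
      rw [g2, rB_x] at hle
      have hw : rB w.1.2.1 = 0 := by omega
      have hw' := rB_eq_zero hw
      rw [g3]
      refine ⟨domB hne h1 (by omega), ?_, ?_, ?_⟩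
      · simp only [hw']; exact near_refl _
      · simp only; omega
      · simp only; omega

/-! ### The robber -/

/-- The even ray vertex at distance at least `D` from `n`. -/
def far (D n : ℕ) : ℕ := if D ≤ n then 0 else 2 * D

/-- The answer of the robber in one coordinate, if he is not about to be dominated. -/
def resp (s : Bool) (D : ℕ) (q p : B) : B :=
  match p with
  | .x => .y s
  | .y s' => if s' = s then .x else .y s
  | .t s' n => if s' = s then
      (match q with
        | .t _ l => .t s l
        | _ => .t s (far D n))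
      else .y s

/-- The robber is about to be dominated. -/
def Trig (q p : B) : Prop := ∃ s l n, q = .t s l ∧ p = .t s n ∧ l ≤ n + 1 ∧ n ≤ l + 1

/-- The invariant in one coordinate at time `k`. -/
def Good (s : Bool) (D M k : ℕ) (q p : B) : Prop :=
  (q = .y s ∧ ¬ near (.y s) p) ∨ (q = .x ∧ p = .y s) ∨
    ∃ l n, q = .t s l ∧ p = .t s n ∧ (l = 0 ∨ l = 2 * D) ∧
      ((l + 2 ≤ n ∧ l + M ≤ n + k) ∨ (n + 2 ≤ l ∧ n + M ≤ l + k))

theorem Good.not_near {s : Bool} {D M k : ℕ} {q p : B} (h : Good s D M k q p) : ¬ near p q := by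
  rcases h with ⟨h1, h2⟩ | ⟨h1, h2⟩ | ⟨l, n, h1, h2, h3, h4⟩
  · subst h1
    exact fun h => h2 (near_symm h)
  · subst h1 h2; simp [near]
  · subst h1 h2
    simp only [near]
    omega

theorem Good.step {s : Bool} {D M k : ℕ} {q p p' : B} (h : Good s D M k q p)
    (hD : 2 ≤ D) (hM : M ≤ D + k + 1) (hp : near p p') (ht : ¬ Trig q p') :
    Good s D M (k + 1) (resp s D q p') p' ∧ near q (resp s D q p') := by
  rcases h with ⟨h1, h2⟩ | ⟨h1, h2⟩ | ⟨l, n, h1, h2, h3, h4⟩
  · subst h1
    rcases p' with _ | s' | ⟨s', n'⟩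
    · simp [Good, resp, near]
    · by_cases hs : s' = s
      · subst hs
        exfalso
        rcases p with _ | s'' | ⟨s'', n''⟩ <;> simp_all [near]
      · have : ¬ s = s' := fun h => hs h.symm
        simp [Good, resp, near, hs, this]
    · by_cases hs : s' = s
      · subst hs
        simp only [resp, if_true]
        refine ⟨Or.inr (Or.inr ⟨far D n', n', rfl, rfl, ?_, ?_⟩), rfl⟩
        · unfold far; split_ifs <;> simp
        · unfold far; split_ifs <;> omega
      · have : ¬ s = s' := fun h => hs h.symm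
        simp [Good, resp, near, hs, this]
  · subst h1 h2
    rcases p' with _ | s' | ⟨s', n'⟩
    · simp [near] at hp
    · simp only [near] at hp
      subst hp
      simp [Good, resp, near]
    · simp only [near] at hp
      subst hp
      simp only [resp, if_true]
      refine ⟨Or.inr (Or.inr ⟨far D n', n', rfl, rfl, ?_, ?_⟩), trivial⟩
      · unfold far; split_ifs <;> simp
      · unfold far; split_ifs <;> omega
  · subst h1 h2
    rcases p' with _ | s' | ⟨s', n'⟩
    · simp [Good, resp, near]
    · simp only [near] at hp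
      subst hp
      simp [Good, resp, near]
    · simp only [near] at hp
      obtain ⟨hs, hn1, hn2⟩ := hp
      subst hs
      simp only [resp, if_true]
      have hnt : ¬ (l ≤ n' + 1 ∧ n' ≤ l + 1) := by
        intro hcon
        exact ht ⟨s, l, n', rfl, rfl, hcon.1, hcon.2⟩
      refine ⟨Or.inr (Or.inr ⟨l, n', rfl, rfl, h3, ?_⟩), by simp [near]⟩
      omega

theorem Good.trig {s : Bool} {D M k : ℕ} {q p p' : B} (h : Good s D M k q p)
    (hp : near p p') (ht : Trig q p') : M ≤ k + 2 ∧ ¬ A p' ∧ near q (.y s) := by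
  obtain ⟨s', l', n', hq, hp', hl, hn⟩ := ht
  rcases h with ⟨h1, h2⟩ | ⟨h1, h2⟩ | ⟨l, n, h1, h2, h3, h4⟩
  · rw [h1] at hq; simp at hq
  · rw [h1] at hq; simp at hq
  · rw [h1] at hq
    simp only [B.t.injEq] at hq
    obtain ⟨rfl, rfl⟩ := hq
    subst h1 h2 hp'
    simp only [near, A] at hp ⊢
    refine ⟨by omega, ?_, trivial⟩
    obtain ⟨-, hn1, hn2⟩ := hp
    omega

/-- The states of the robber's automaton: the phase and the three coordinates. -/
structure St where
  ph : ℕ
  q : B
  q' : B
  h : ℕ

open Classical in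
/-- The transition function of the robber's automaton. -/
noncomputable def upd (s : Bool) (m n : ℕ) (σ : St) (c : Vtx) : St :=
  if σ.ph = 0 then
    if Trig σ.q c.1.1 then ⟨1, .y s, .y true, 2⟩
    else ⟨0, resp s (m + 2) σ.q c.1.1, σ.q', σ.h⟩
  else if σ.ph = 1 then
    if Trig σ.q' c.1.2.1 then ⟨2, .y s, .y true, 2⟩
    else ⟨1, σ.q, resp true (n + 2) σ.q' c.1.2.1, σ.h⟩
  else ⟨2, σ.q, σ.q', σ.h + 1⟩

open Classical in
/-- The position given by a state. -/
noncomputable def pos (σ : St) : Vtx :=
  if h : (A σ.q ∨ (σ.q' = .x ∧ σ.h = 0)) ∧ (A σ.q' ∨ σ.h = 0) then ⟨(σ.q, σ.q', σ.h), h⟩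
  else rootV

/-- The starting vertex of the robber. -/
def startV (s : Bool) : Vtx := ⟨(.y s, .y true, 2), by simp [A]⟩

theorem pos_val {σ : St} (h1 : A σ.q) (h2 : A σ.q') : (pos σ).1 = (σ.q, σ.q', σ.h) := by
  unfold pos
  rw [dif_pos ⟨Or.inl h1, Or.inl h2⟩]

theorem Good.A {s : Bool} {D M k : ℕ} {q p : B} (h : Good s D M k q p) : A q := by
  rcases h with ⟨h1, h2⟩ | ⟨h1, h2⟩ | ⟨l, n, h1, h2, h3, h4⟩
  · subst h1; simp [DoubleLongReturn.A]
  · subst h1; simp [DoubleLongReturn.A]
  · subst h1
    simp only [DoubleLongReturn.A]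
    omega

/-- Finite set of allowed values of one coordinate before the final phase. -/
def Fin1 (s : Bool) (D : ℕ) : Set B := {.y s, .x, .t s 0, .t s (2 * D)}

theorem Fin1_finite (s : Bool) (D : ℕ) : (Fin1 s D).Finite := by
  unfold Fin1
  exact Set.toFinite _

theorem Good.mem {s : Bool} {D M k : ℕ} {q p : B} (h : Good s D M k q p) : q ∈ Fin1 s D := by
  rcases h with ⟨h1, h2⟩ | ⟨h1, h2⟩ | ⟨l, n, h1, h2, h3, h4⟩
  · subst h1; simp [Fin1]
  · subst h1; simp [Fin1]
  · subst h1
    rcases h3 with h3 | h3 <;> subst h3 <;> simp [Fin1]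

/-- The invariant of the robber's automaton. -/
def Inv (s : Bool) (m n k : ℕ) (P : ℕ → Vtx) (σ : St) (c : Vtx) : Prop :=
  (σ.ph = 0 ∧ σ.h = 2 ∧ σ.q' = .y true ∧ Good s (m + 2) (m + 1) k σ.q c.1.1) ∨
  (σ.ph = 1 ∧ σ.h = 2 ∧ σ.q = .y s ∧ ∃ t, m ≤ t ∧ t ≤ k ∧ P t = startV s ∧
    Good true (n + 2) (t + n + 1) k σ.q' c.1.2.1) ∨
  (σ.ph = 2 ∧ σ.q = .y s ∧ σ.q' = .y true ∧ c.1.2.2 + 2 ≤ σ.h ∧
    ∃ t t', m ≤ t ∧ t + n ≤ t' ∧ P t = startV s ∧ P t' = startV s)

theorem Inv.A1 {s : Bool} {m n k : ℕ} {P : ℕ → Vtx} {σ : St} {c : Vtx}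
    (h : Inv s m n k P σ c) : A σ.q := by
  rcases h with ⟨-, -, -, h⟩ | ⟨-, -, h, -⟩ | ⟨-, h, -⟩
  · exact h.A
  · rw [h]; simp [DoubleLongReturn.A]
  · rw [h]; simp [DoubleLongReturn.A]

theorem Inv.A2 {s : Bool} {m n k : ℕ} {P : ℕ → Vtx} {σ : St} {c : Vtx}
    (h : Inv s m n k P σ c) : A σ.q' := by
  rcases h with ⟨-, -, h, -⟩ | ⟨-, -, -, t, -, -, -, h⟩ | ⟨-, -, h, -⟩
  · rw [h]; simp [DoubleLongReturn.A]
  · exact h.A
  · rw [h]; simp [DoubleLongReturn.A]

theorem Inv.not_near {s : Bool} {m n k : ℕ} {P : ℕ → Vtx} {σ : St} {c : Vtx}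
    (h : Inv s m n k P σ c) : ¬ Near c (pos σ) := by
  intro hN
  have hv := pos_val h.A1 h.A2
  obtain ⟨n1, n2, n3, n4⟩ := hN
  rw [hv] at n1 n2 n3 n4
  rcases h with ⟨-, -, -, h⟩ | ⟨-, -, -, t, -, -, -, h⟩ | ⟨-, -, -, h, -⟩
  · exact h.not_near n1
  · exact h.not_near n2
  · simp only at n4; omega

/-- One step of the game preserves the invariant, and the robber's move is legal. -/
theorem Inv.step {s : Bool} {m n k : ℕ} {P : ℕ → Vtx} {σ : St} {c c' : Vtx}
    (h : Inv s m n k P σ c) (hc : Near c c') (hP : P (k + 1) = pos (upd s m n σ c')) :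
    Inv s m n (k + 1) P (upd s m n σ c') c' ∧ Near (pos σ) (pos (upd s m n σ c')) := by
  classical
  have hv := pos_val h.A1 h.A2
  obtain ⟨c1, c2, c3, c4⟩ := hc
  have hfin : ∀ h' : Inv s m n (k + 1) P (upd s m n σ c') c',
      near σ.q (upd s m n σ c').q → near σ.q' (upd s m n σ c').q' →
      σ.h ≤ (upd s m n σ c').h + 1 → (upd s m n σ c').h ≤ σ.h + 1 →
      Inv s m n (k + 1) P (upd s m n σ c') c' ∧ Near (pos σ) (pos (upd s m n σ c')) := by
    intro h' g1 g2 g3 g4
    refine ⟨h', ?_⟩
    have hv' := pos_val h'.A1 h'.A2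
    unfold Near
    rw [hv, hv']
    exact ⟨g1, g2, g3, g4⟩
  rcases h with ⟨h1, h2, h3, h4⟩ | ⟨h1, h2, h3, t, h4, h5, h6, h7⟩ | ⟨h1, h2, h3, h4, t, t', h5, h6, h7, h8⟩
  · -- phase 0
    by_cases ht : Trig σ.q c'.1.1
    · obtain ⟨g1, g2, g3⟩ := h4.trig c1 ht
      have hu : upd s m n σ c' = ⟨1, .y s, .y true, 2⟩ := by
        unfold upd; rw [if_pos h1, if_pos ht]
      rw [hu] at hP hfin ⊢
      have hstart : P (k + 1) = startV s := by
        rw [hP]
        apply Subtype.ext
        rw [pos_val (by simp [A]) (by simp [A])]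
        rfl
      apply hfin
      · refine Or.inr (Or.inl ⟨rfl, rfl, rfl, k + 1, by omega, le_rfl, hstart, ?_⟩)
        left
        refine ⟨rfl, ?_⟩
        have : c'.1.2.1 = .x := by
          rcases c'.2.1 with hA | hA
          · exact absurd hA g2
          · exact hA.1
        rw [this]
        simp [near]
      · exact g3
      · rw [h3]; exact near_refl _
      · simp only; omega
      · simp only; omega
    · have hu : upd s m n σ c' = ⟨0, resp s (m + 2) σ.q c'.1.1, σ.q', σ.h⟩ := by
        unfold upd; rw [if_pos h1, if_neg ht]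
      rw [hu] at hP hfin ⊢
      obtain ⟨g1, g2⟩ := h4.step (by omega) (by omega) c1 ht
      apply hfin
      · exact Or.inl ⟨rfl, h2, h3, g1⟩
      · exact g2
      · exact near_refl _
      · simp only; omega
      · simp only; omega
  · -- phase 1
    have h0 : ¬ σ.ph = 0 := by omega
    by_cases ht : Trig σ.q' c'.1.2.1
    · obtain ⟨g1, g2, g3⟩ := h7.trig c2 ht
      have hu : upd s m n σ c' = ⟨2, .y s, .y true, 2⟩ := by
        unfold upd; rw [if_neg h0, if_pos h1, if_pos ht]
      rw [hu] at hP hfin ⊢
      have hstart : P (k + 1) = startV s := by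
        rw [hP]
        apply Subtype.ext
        rw [pos_val (by simp [A]) (by simp [A])]
        rfl
      apply hfin
      · refine Or.inr (Or.inr ⟨rfl, rfl, rfl, ?_, t, k + 1, h4, by omega, h6, hstart⟩)
        rcases c'.2.2 with hA | hA
        · exact absurd hA g2
        · simp only; omega
      · rw [h3]; exact near_refl _
      · exact g3
      · simp only; omega
      · simp only; omega
    · have hu : upd s m n σ c' = ⟨1, σ.q, resp true (n + 2) σ.q' c'.1.2.1, σ.h⟩ := by
        unfold upd; rw [if_neg h0, if_pos h1, if_neg ht]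
      rw [hu] at hP hfin ⊢
      obtain ⟨g1, g2⟩ := h7.step (by omega) (by omega) c2 ht
      apply hfin
      · exact Or.inr (Or.inl ⟨rfl, h2, h3, t, h4, by omega, h6, g1⟩)
      · exact near_refl _
      · exact g2
      · simp only; omega
      · simp only; omega
  · -- phase 2
    have h0 : ¬ σ.ph = 0 := by omega
    have h0' : ¬ σ.ph = 1 := by omega
    have hu : upd s m n σ c' = ⟨2, σ.q, σ.q', σ.h + 1⟩ := by
      unfold upd; rw [if_neg h0, if_neg h0']
    rw [hu] at hP hfin ⊢
    apply hfin
    · refine Or.inr (Or.inr ⟨rfl, h2, h3, ?_, t, t', h5, h6, h7, h8⟩)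
      simp only; omega
    · exact near_refl _
    · exact near_refl _
    · simp only; omega
    · simp only; omega

theorem hasDoubleLongReturn : HasDoubleLongReturn Gr := by
  classical
  intro c₀
  -- the wing avoided by the cop
  obtain ⟨s, hs⟩ : ∃ s : Bool, ¬ near (.y s) c₀.1.1 := by
    rcases c₀.1.1 with _ | s | ⟨s, n⟩
    · exact ⟨true, by simp [near]⟩
    · exact ⟨!s, by simp [near]⟩
    · exact ⟨!s, by simp [near]⟩
  refine ⟨startV s, ?_⟩
  intro m n hm hn
  refine ⟨fun L => pos (L.tail.foldl (upd s m n) ⟨0, .y s, .y true, 2⟩), ?_⟩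
  intro c hc0 hc
  set R : List Vtx → Vtx := fun L => pos (L.tail.foldl (upd s m n) ⟨0, .y s, .y true, 2⟩) with hR
  set st : ℕ → St := run (⟨0, .y s, .y true, 2⟩ : St) (upd s m n) (fun i => c (i + 1)) with hst
  have hpos : ∀ k, robPos R c k = pos (st k) := by
    intro k
    simp only [robPos, hR]
    rw [hist_tail, foldl_hist]
  have hst0 : st 0 = ⟨0, .y s, .y true, 2⟩ := rfl
  have hsts : ∀ k, st (k + 1) = upd s m n (st k) (c (k + 1)) := fun k => rfl
  have hinv : ∀ k, Inv s m n k (robPos R c) (st k) (c k) := by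
    intro k
    induction k with
    | zero =>
      left
      rw [hst0, hc0]
      exact ⟨rfl, rfl, rfl, Or.inl ⟨rfl, hs⟩⟩
    | succ k ih =>
      have h1 : Near (c k) (c (k + 1)) := (step_iff _ _).mp (hc k)
      have h2 : robPos R c (k + 1) = pos (upd s m n (st k) (c (k + 1))) := by
        rw [hpos, hsts]
      rw [hsts]
      exact (ih.step h1 h2).1
  have h0 : robPos R c 0 = startV s := by
    rw [hpos, hst0]
    apply Subtype.ext
    rw [pos_val (by simp [A]) (by simp [A])]
    rfl
  refine ⟨h0, ?_, ?_, ?_⟩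
  · intro k
    rw [step_iff, hpos, hpos, hsts]
    have h1 : Near (c k) (c (k + 1)) := (step_iff _ _).mp (hc k)
    have h2 : robPos R c (k + 1) = pos (upd s m n (st k) (c (k + 1))) := by
      rw [hpos, hsts]
    exact ((hinv k).step h1 h2).2
  · rintro ⟨k, hk | hk⟩
    · apply (hinv k).not_near
      rw [← hpos, ← hk]
      exact (step_iff _ _).mp (Step.refl _ _)
    · apply (hinv k).not_near
      rw [← hpos, ← hk]
      exact (step_iff _ _).mp (hc k)
  · by_cases hph : ∃ k, (st k).ph = 2
    · right
      obtain ⟨k, hk⟩ := hph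
      rcases hinv k with h | h | h
      · omega
      · omega
      · obtain ⟨-, -, -, -, t, t', h5, h6, h7, h8⟩ := h
        exact ⟨t, t', h5, h6, h7, h8⟩
    · left
      refine ⟨{u | u.1.1 ∈ Fin1 s (m + 2) ∧ u.1.2.1 ∈ Fin1 true (n + 2) ∧ u.1.2.2 = 2}, ?_, ?_⟩
      · have hfin : ((Fin1 s (m + 2)) ×ˢ ((Fin1 true (n + 2)) ×ˢ ({2} : Set ℕ))).Finite :=
          (Fin1_finite _ _).prod ((Fin1_finite _ _).prod (Set.finite_singleton _))
        refine (hfin.preimage (f := fun u : Vtx => u.1) Subtype.val_injective.injOn).subset ?_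
        rintro u ⟨h1, h2, h3⟩
        exact ⟨h1, h2, h3⟩
      · intro k
        rw [hpos]
        have hv := pos_val (hinv k).A1 (hinv k).A2
        change (pos (st k)).1.1 ∈ _ ∧ (pos (st k)).1.2.1 ∈ _ ∧ (pos (st k)).1.2.2 = 2
        rw [hv]
        rcases hinv k with ⟨-, h2, h3, h4⟩ | ⟨-, h2, h3, t, -, -, -, h4⟩ | ⟨h1, -⟩
        · refine ⟨h4.mem, ?_, h2⟩
          simp only
          rw [h3]; simp [Fin1]
        · refine ⟨?_, h4.mem, h2⟩
          simp only
          rw [h3]; simp [Fin1]
        · exact absurd ⟨k, h1⟩ hph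

/-- There is a connected graph that is a weak cop win and has the double long return property. -/
theorem result : ∃ (V : Type) (G : SimpleGraph V),
    G.Connected ∧ WeakCopWin G ∧ HasDoubleLongReturn G :=
  ⟨Vtx, Gr, constr.connected, constr.weakCopWin, hasDoubleLongReturn⟩

end Pool.Agent.Results.MP_70f359_co.DoubleLongReturn
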